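import Pool.Agent.Lib.MP_77f3ac_co.Step
import Pool.Agent.Lib.MP_77f3ac_co.Assembly
import Pool.Agent.Lib.MP_77f3ac_co.StartValue
import Pool.Agent.Lib.MP_77f3ac_co_h56.Geom

/-!
# MP_77f3ac_co: the `10 ^ 3` torus game is a (strong) draw

The game and its notions (torus-lines, strategies, plays, draw, strong draw) are defined in
`Pool.Agent.Lib.MP_77f3ac_co.Defs`.
-/

set_option autoImplicit false

namespace Pool.Agent.Results.MP_77f3ac_co.StrongDraw

open Torus103

attribute [local irreducible] lines103

/-- In the `10 ^ 3` torus game (board `(ℤ/10)^3`, winning sets the torus-lines) the second player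
can prevent the first player from ever owning a whole torus-line; the game is a draw: both players
can force at least a draw, and neither player has a winning strategy. -/
theorem result :
    IsStrongDraw (torusLines 10 3) ∧ IsDraw (torusLines 10 3) ∧
      ¬ FirstHasWinningStrategy (torusLines 10 3) ∧
      ¬ SecondHasWinningStrategy (torusLines 10 3) := by
  rw [← coe_lines103]
  have : Nonempty Pt := ⟨fun _ => 0⟩
  exact draw_of_step lines103
    (fun F 𝓛 hL hI z hz hne => step geom_torus hL F hI z hz hne)
    (SM.start_empty geom_torus) ⟨fun _ => 0, SM.start_one geom_torus _⟩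

end Pool.Agent.Results.MP_77f3ac_co.StrongDraw
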